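import Pool.Agent.W2helper3.BQ.Stm2
import Pool.Agent.W2helper74.BQ.FINA

/-!
# BQ2 piece FINA2: the final assembly for an arbitrary finite set of frequencies
(adapted from `Pool/Agent/W2helper74/BQ/FINA.lean`)
-/

set_option autoImplicit false

open MeasureTheory Set Filter Topology
open scoped SchwartzMap ENNReal ContDiff BigOperators

namespace Pool.Agent.W4helper65.BQ.FINA2

open Pool.Agent.W2helper3.BQ
open Pool.Agent.Y282.RB (Tn Cn)
open Pool.Agent.Y282.RB.A2 (db dd Tn_db)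
open Pool.Agent.Y282.RB.K (Tn_eq Tn_add adm_sy)
open Pool.Agent.TH55.PowA (T_cont)
open Pool.Agent.W2helper74.BQ.FINA

/-- `P_GEO` for an arbitrary finite set of frequencies -/
def GEOS : Prop := ∀ (n : ℕ) (S : Finset ℤ) (p : ℝ), 0 < p → ∀ (h : 𝓢(ℂ, ℂ)) (ζ : ℤ → 𝓢(ℝ, ℂ)),
  (∀ u t : ℝ, h (ex u t) = Real.exp (u * (n / 2 - 1 / p)) * ∑ k ∈ S,
    Complex.exp (((k : ℝ) - n) * t * Complex.I) * ζ k u) →
  ∀ u t : ℝ,
    Real.exp (u / p) * (db^[n] h) (ex u t) = Complex.exp (2 * n * t * Complex.I) *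
      ∑ k ∈ S, Complex.exp (((k : ℝ) - 2 * n) * t * Complex.I) * pol (PA p n k) (ζ k) u ∧
    Real.exp (u / p) * (dd^[n] h) (ex u t) =
      ∑ k ∈ S, Complex.exp (((k : ℝ) - 2 * n) * t * Complex.I) * pol (PB p n k) (ζ k) u

theorem exists_Icc (S : Finset ℤ) : ∃ N : ℕ, S ⊆ Finset.Icc (-(N : ℤ)) N := by
  refine ⟨S.sup Int.natAbs, fun k hk => ?_⟩
  have h : Int.natAbs k ≤ S.sup Int.natAbs := Finset.le_sup (f := Int.natAbs) hk
  rw [Finset.mem_Icc]
  omega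

theorem pol_zero (P : Polynomial ℝ) : pol P 0 = 0 := by
  unfold pol
  exact map_zero _

theorem geoS (hGEO : P_GEO) : GEOS := by
  intro n S p hp h ζ hh u t
  obtain ⟨N, hN⟩ := exists_Icc S
  set ζ' : ℤ → 𝓢(ℝ, ℂ) := fun k => if k ∈ S then ζ k else 0 with hζ'
  have key : ∀ (P : ℤ → Polynomial ℝ) (c : ℤ → ℂ) (u : ℝ),
      ∑ k ∈ Finset.Icc (-(N : ℤ)) N, c k * pol (P k) (ζ' k) u =
      ∑ k ∈ S, c k * pol (P k) (ζ k) u := by
    intro P c u
    rw [← Finset.sum_subset hN]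
    · apply Finset.sum_congr rfl
      intro k hk
      simp only [hζ', if_pos hk]
    · intro k _ hk
      simp only [hζ', if_neg hk, pol_zero]
      rw [zero_apply, mul_zero]
  have key2 : ∀ (c : ℤ → ℂ) (u : ℝ), ∑ k ∈ Finset.Icc (-(N : ℤ)) N, c k * ζ' k u =
      ∑ k ∈ S, c k * ζ k u := by
    intro c u
    rw [← Finset.sum_subset hN]
    · apply Finset.sum_congr rfl
      intro k hk
      simp only [hζ', if_pos hk]
    · intro k _ hk
      simp only [hζ', if_neg hk]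
      rw [zero_apply, mul_zero]
  have h1 := hGEO n N p hp h ζ' (fun u t => by rw [hh u t, key2]) u t
  rw [key, key] at h1
  exact h1

/-- the inequality for `db^[n] h`, `dd^[n] h` -/
theorem dd_le (hPOL : P_POL) (hGEO : GEOS) {p : ℝ} (hp : 4 ≤ p) (n : ℕ) (S : Finset ℤ)
    (ζ : ℤ → 𝓢(ℝ, ℂ)) (hζ : ∀ k, HasCompactSupport (ζ k)) (h : 𝓢(ℂ, ℂ))
    (hh : ∀ u t : ℝ, h (ex u t) = Real.exp (u * (n / 2 - 1 / p)) *
      ∑ k ∈ S, Complex.exp (((k : ℝ) - n) * t * Complex.I) * ζ k u)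
    (hMO : ∫ u, (av fun t => ‖∑ k ∈ S,
      Complex.exp (((k : ℝ) - 2 * n) * t * Complex.I) * pol (PB p n k) (ζ k) u‖ ^ p) ≤
    (Cn p n) ^ p * ∫ u, (av fun t => ‖∑ k ∈ S,
      Complex.exp (((k : ℝ) - 2 * n) * t * Complex.I) * pol (PA p n k) (ζ k) u‖ ^ p)) :
    eLpNorm (dd^[n] h) (ENNReal.ofReal p) (volume : Measure ℂ) ≤
      ENNReal.ofReal (Cn p n) * eLpNorm (db^[n] h) (ENNReal.ofReal p) (volume : Measure ℂ) := by
  have hp0 : 0 < p := by linarith
  have hC : 0 ≤ Cn p n := by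
    unfold Cn
    refine Finset.prod_nonneg fun j _ => ?_
    have h1 : 1 / p ≤ 1 := by rw [div_le_iff₀ hp0]; linarith
    have h2 : 0 < 1 / p := by positivity
    have h3 : (0 : ℝ) ≤ j := Nat.cast_nonneg j
    exact div_nonneg (by linarith) (by linarith)
  set c : ℤ → ℂ := fun k => ((k : ℝ) : ℂ) - 2 * n with hc
  have hA : ∀ k, HasCompactSupport (pol (PA p n k) (ζ k)) := fun k => cs_pol _ _ (hζ k)
  have hB : ∀ k, HasCompactSupport (pol (PB p n k) (ζ k)) := fun k => cs_pol _ _ (hζ k)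
  have eA : ∀ u : ℝ, (av fun t => ‖Real.exp (u / p) * (db^[n] h) (ex u t)‖ ^ p) =
      GG p S c (fun k => pol (PA p n k) (ζ k)) u := by
    intro u
    unfold GG
    congr 1
    funext t
    rw [(hGEO n S p hp0 h ζ hh u t).1]
    have r : ∀ z : ℂ, ‖Complex.exp (2 * n * t * Complex.I) * z‖ = ‖z‖ := by
      intro z
      have := rot_norm (2 * n) t z
      push_cast at this
      exact this
    rw [r]
  have eB : ∀ u : ℝ, (av fun t => ‖Real.exp (u / p) * (dd^[n] h) (ex u t)‖ ^ p) =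
      GG p S c (fun k => pol (PB p n k) (ζ k)) u := by
    intro u
    unfold GG
    congr 1
    funext t
    rw [(hGEO n S p hp0 h ζ hh u t).2]
  have hMO' : ∫ u, GG p S c (fun k => pol (PB p n k) (ζ k)) u ≤
      (Cn p n) ^ p * ∫ u, GG p S c (fun k => pol (PA p n k) (ζ k)) u := hMO
  rw [norm_eq hPOL hp0, norm_eq hPOL hp0]
  simp only [eA, eB]
  rw [← ofReal_integral_eq_lintegral_ofReal (GG_int hp0 _ c _ hA)
      (Eventually.of_forall fun u => GG_nonneg _ _ _ _ u),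
    ← ofReal_integral_eq_lintegral_ofReal (GG_int hp0 _ c _ hB)
      (Eventually.of_forall fun u => GG_nonneg _ _ _ _ u)]
  have e1 : ENNReal.ofReal (Cn p n) = (ENNReal.ofReal (Cn p n) ^ p) ^ (1 / p) := by
    rw [← ENNReal.rpow_mul, mul_one_div_cancel hp0.ne', ENNReal.rpow_one]
  rw [e1, ← ENNReal.mul_rpow_of_nonneg _ _ (by positivity)]
  apply ENNReal.rpow_le_rpow _ (by positivity)
  rw [mul_left_comm]
  gcongr
  rw [ENNReal.ofReal_rpow_of_nonneg hC hp0.le, ← ENNReal.ofReal_mul (by positivity)]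
  exact ENNReal.ofReal_le_ofReal hMO'

theorem core (hPOL : P_POL) (hGEO : GEOS) (hEXI : P_EXI)
    (hDEN : ∀ (n : ℕ) (α : ℕ → ℝ), (∀ i, i < n → α i ≠ 0) → ∀ (φ : 𝓢(ℝ, ℂ)) (p ε : ℝ),
      1 ≤ p → 0 < ε → ∃ ζ : 𝓢(ℝ, ℂ), HasCompactSupport ζ ∧
      eLpNorm (fun u => pol (∏ i ∈ Finset.range n, (Polynomial.X - Polynomial.C (α i))) ζ u - φ u)
        (ENNReal.ofReal p) volume ≤ ENNReal.ofReal ε)
    (hTR : P_TR) (n : ℕ) (hn : 1 ≤ n) (p : ℝ) (hp4 : 4 ≤ p) (S : Finset ℤ)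
    (H : ∀ ζ : ℤ → 𝓢(ℝ, ℂ), (∀ k, HasCompactSupport (ζ k)) →
      ∫ u, (av fun t => ‖∑ k ∈ S,
        Complex.exp (((k : ℝ) - 2 * n) * t * Complex.I) * pol (PB p n k) (ζ k) u‖ ^ p) ≤
      (Cn p n) ^ p * ∫ u, (av fun t => ‖∑ k ∈ S,
        Complex.exp (((k : ℝ) - 2 * n) * t * Complex.I) * pol (PA p n k) (ζ k) u‖ ^ p))
    (g : ℤ → 𝓢(ℂ, ℂ))
    (hg : ∀ (k : ℤ) (z a : ℂ), ‖a‖ = 1 → g k (a * z) = a ^ k * g k z) :
    eLpNorm (Tn n (∑ k ∈ S, g k : 𝓢(ℂ, ℂ))) (ENNReal.ofReal p)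
      (volume : Measure ℂ) ≤
    ENNReal.ofReal (Cn p n) * eLpNorm (∑ k ∈ S, g k : 𝓢(ℂ, ℂ))
      (ENNReal.ofReal p) (volume : Measure ℂ) := by
  have hp0 : 0 < p := by linarith
  have hP1 : (1 : ℝ≥0∞) ≤ ENNReal.ofReal p := by
    rw [← ENNReal.ofReal_one]
    exact ENNReal.ofReal_le_ofReal (by linarith)
  set f : 𝓢(ℂ, ℂ) := ∑ k ∈ S, g k with hf
  set Kb : ℝ≥0∞ := ENNReal.ofReal (Pool.Agent.TH55.PowA.Cn n * (p - 1)) with hKb
  set B : ℝ≥0∞ := (S.card : ℝ≥0∞) + (ENNReal.ofReal Real.pi) ^ (1 / p) * S.card with hB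
  have key : ∀ ε : ℝ, 0 < ε → eLpNorm (Tn n f) (ENNReal.ofReal p) (volume : Measure ℂ) ≤
      ((Kb + ENNReal.ofReal (Cn p n)) * B) * ENNReal.ofReal ε + ENNReal.ofReal (Cn p n) *
        eLpNorm f (ENNReal.ofReal p) (volume : Measure ℂ) := by
    intro ε hε
    choose φ f₁ hφ hf₁ hf₁' using fun k => hTR k (g k) (hg k) p ε (by linarith) hε
    choose ζ hζ hζ' using fun k : ℤ => hDEN n (al p n k) (fun i _ => al_ne hp4 n k i) (φ k) p ε
      (by linarith) hε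
    have hexs : ContDiff ℝ ∞ (fun u : ℝ => ((Real.exp (u * (n / 2 - 1 / p)) : ℝ) : ℂ)) :=
      Complex.ofRealCLM.contDiff.comp (Real.contDiff_exp.comp (contDiff_id.mul contDiff_const))
    choose hk hkc hkv using fun k : ℤ => hEXI (k - n)
      (fun u => ((Real.exp (u * (n / 2 - 1 / p)) : ℝ) : ℂ) * ζ k u)
      (hexs.mul ((ζ k).smooth ⊤)) ((hζ k).mul_left)
    set h : 𝓢(ℂ, ℂ) := ∑ k ∈ S, hk k with hh0
    have hh : ∀ u t : ℝ, h (ex u t) = Real.exp (u * (n / 2 - 1 / p)) *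
        ∑ k ∈ S, Complex.exp (((k : ℝ) - n) * t * Complex.I) * ζ k u := by
      intro u t
      rw [hh0, sum_apply, Finset.mul_sum]
      apply Finset.sum_congr rfl
      intro k _
      rw [hkv k u t]
      push_cast
      ring
    have E1 : eLpNorm (f - ∑ k ∈ S, f₁ k : 𝓢(ℂ, ℂ)) (ENNReal.ofReal p) (volume : Measure ℂ) ≤
        S.card * ENNReal.ofReal ε := by
      have e1 : (⇑(f - ∑ k ∈ S, f₁ k : 𝓢(ℂ, ℂ)) : ℂ → ℂ) =
          ∑ k ∈ S, (⇑(g k - f₁ k : 𝓢(ℂ, ℂ)) : ℂ → ℂ) := by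
        rw [hf, ← Finset.sum_sub_distrib]
        funext z
        rw [sum_apply, Finset.sum_apply]
      rw [e1]
      calc _ ≤ ∑ k ∈ S, eLpNorm (⇑(g k - f₁ k : 𝓢(ℂ, ℂ))) (ENNReal.ofReal p)
            (volume : Measure ℂ) :=
            eLpNorm_sum_le (fun k _ => (g k - f₁ k : 𝓢(ℂ, ℂ)).continuous.aestronglyMeasurable) hP1
        _ ≤ ∑ k ∈ S, ENNReal.ofReal ε := Finset.sum_le_sum fun k _ => hf₁' k
        _ = S.card * ENNReal.ofReal ε := by rw [Finset.sum_const, nsmul_eq_mul]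
    have E2 : eLpNorm (∑ k ∈ S, f₁ k - db^[n] h : 𝓢(ℂ, ℂ)) (ENNReal.ofReal p)
        (volume : Measure ℂ) ≤ (ENNReal.ofReal Real.pi) ^ (1 / p) * (S.card * ENNReal.ofReal ε) := by
      refine small hPOL hp4 S _ (fun k => (k : ℝ))
        (fun k u => -(pol (PA p n k) (ζ k) u - φ k u)) (fun k => ?_) _ (fun u t => ?_)
        (fun k _ => ?_)
      · exact ((pol (PA p n k) (ζ k)).continuous.sub (φ k).continuous).neg
      · have e1 : (∑ k ∈ S, f₁ k - db^[n] h : 𝓢(ℂ, ℂ)) (ex u t) =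
            ∑ k ∈ S, f₁ k (ex u t) - (db^[n] h) (ex u t) := by
          rw [sub_apply, sum_apply]
        rw [e1, mul_sub, (hGEO n S p hp0 h ζ hh u t).1, Finset.mul_sum, Finset.mul_sum,
          ← Finset.sum_sub_distrib]
        apply Finset.sum_congr rfl
        intro k _
        rw [hf₁ k u t, ← mul_assoc, ← Complex.exp_add]
        have e2 : (2 * n * t * Complex.I + (((k : ℝ) : ℂ) - 2 * n) * t * Complex.I : ℂ) =
            ((k : ℝ) : ℂ) * t * Complex.I := by ring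
        rw [e2]
        push_cast
        ring
      · have e1 : (fun u => -(pol (PA p n k) (ζ k) u - φ k u)) =
            -(fun u => pol (PA p n k) (ζ k) u - φ k u) := rfl
        rw [e1, eLpNorm_neg]
        exact hζ' k
    have E3 : eLpNorm (f - db^[n] h : 𝓢(ℂ, ℂ)) (ENNReal.ofReal p) (volume : Measure ℂ) ≤
        B * ENNReal.ofReal ε := by
      have e1 : (⇑(f - db^[n] h : 𝓢(ℂ, ℂ)) : ℂ → ℂ) =
          (⇑(f - ∑ k ∈ S, f₁ k : 𝓢(ℂ, ℂ)) : ℂ → ℂ) + ⇑(∑ k ∈ S, f₁ k - db^[n] h : 𝓢(ℂ, ℂ)) := by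
        funext z
        simp
      rw [e1]
      refine (eLpNorm_add_le (SchwartzMap.continuous _).aestronglyMeasurable
        (SchwartzMap.continuous _).aestronglyMeasurable hP1).trans ?_
      refine (add_le_add E1 E2).trans (le_of_eq ?_)
      rw [hB, add_mul, mul_assoc]
    have E4 := dd_le hPOL hGEO hp4 n S ζ hζ h hh (H ζ hζ)
    have E5 : eLpNorm (db^[n] h) (ENNReal.ofReal p) (volume : Measure ℂ) ≤
        eLpNorm f (ENNReal.ofReal p) (volume : Measure ℂ) + B * ENNReal.ofReal ε := by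
      have e1 : (⇑(db^[n] h) : ℂ → ℂ) = ⇑f - ⇑(f - db^[n] h : 𝓢(ℂ, ℂ)) := by
        funext z
        simp
      rw [e1]
      refine (eLpNorm_sub_le (SchwartzMap.continuous _).aestronglyMeasurable
        (SchwartzMap.continuous _).aestronglyMeasurable hP1).trans ?_
      gcongr
    have e1 : Tn n f = fun z => Tn n (f - db^[n] h : 𝓢(ℂ, ℂ)) z + (dd^[n] h) z := by
      have e2 : Tn n f = Tn n ((f - db^[n] h) + db^[n] h : 𝓢(ℂ, ℂ)) := by
        congr 2
        rw [sub_add_cancel]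
      rw [e2, Tn_add]
      funext z
      rw [Tn_db]
    have m1 : AEStronglyMeasurable (Tn n (f - db^[n] h : 𝓢(ℂ, ℂ))) (volume : Measure ℂ) := by
      rw [Tn_eq]
      exact (T_cont (adm_sy n) _).aestronglyMeasurable
    rw [e1]
    refine (eLpNorm_add_le m1 (SchwartzMap.continuous _).aestronglyMeasurable hP1).trans ?_
    have E6 : eLpNorm (Tn n (f - db^[n] h : 𝓢(ℂ, ℂ))) (ENNReal.ofReal p) (volume : Measure ℂ) ≤
        Kb * (B * ENNReal.ofReal ε) := by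
      refine le_trans ?_ (mul_le_mul_right E3 Kb)
      rw [Tn_eq]
      exact Pool.Agent.TH55.PowA.main p (by linarith) n hn (f - db^[n] h)
    calc _ ≤ Kb * (B * ENNReal.ofReal ε) + ENNReal.ofReal (Cn p n) *
          (eLpNorm f (ENNReal.ofReal p) (volume : Measure ℂ) + B * ENNReal.ofReal ε) :=
          add_le_add E6 (E4.trans (mul_le_mul_right E5 _))
      _ = _ := by ring
  -- let `ε → 0`
  have hM : (Kb + ENNReal.ofReal (Cn p n)) * B ≠ ⊤ := by
    refine ENNReal.mul_ne_top (ENNReal.add_ne_top.2 ⟨ENNReal.ofReal_ne_top, ENNReal.ofReal_ne_top⟩)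
      (ENNReal.add_ne_top.2 ⟨ENNReal.natCast_ne_top _, ENNReal.mul_ne_top ?_
        (ENNReal.natCast_ne_top _)⟩)
    exact ENNReal.rpow_ne_top_of_nonneg (by positivity) ENNReal.ofReal_ne_top
  have hlim : Tendsto (fun j : ℕ => ((Kb + ENNReal.ofReal (Cn p n)) * B) *
      ENNReal.ofReal (1 / ((j : ℝ) + 1)) + ENNReal.ofReal (Cn p n) *
        eLpNorm f (ENNReal.ofReal p) (volume : Measure ℂ)) atTop
      (𝓝 (((Kb + ENNReal.ofReal (Cn p n)) * B) * 0 + ENNReal.ofReal (Cn p n) *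
        eLpNorm f (ENNReal.ofReal p) (volume : Measure ℂ))) := by
    refine Tendsto.add ?_ tendsto_const_nhds
    refine ENNReal.Tendsto.const_mul ?_ (Or.inr hM)
    have := (ENNReal.continuous_ofReal.tendsto 0).comp
      (tendsto_one_div_add_atTop_nhds_zero_nat (𝕜 := ℝ))
    rw [ENNReal.ofReal_zero] at this
    exact this
  rw [mul_zero, zero_add] at hlim
  exact ge_of_tendsto' hlim fun j => key _ (by positivity)

theorem Tn_zero (n : ℕ) : Tn n (0 : 𝓢(ℂ, ℂ)) = fun _ => 0 := by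
  have h := Tn_add n (0 : 𝓢(ℂ, ℂ)) 0
  rw [add_zero] at h
  funext z
  have h1 := congrFun h z
  have h2 : Tn n (0 : 𝓢(ℂ, ℂ)) z + 0 = Tn n (0 : 𝓢(ℂ, ℂ)) z + Tn n (0 : 𝓢(ℂ, ℂ)) z := by
    rw [add_zero]
    exact h1
  exact (add_left_cancel h2).symm

end Pool.Agent.W4helper65.BQ.FINA2

namespace Pool.Agent.W4helper65.BQ

open Pool.Agent.W2helper3.BQ
open Pool.Agent.Y282.RB (Tn Cn)

theorem p_FINA2 : P_FINA2 := by
  intro hMO hPOL hGEO hEXI hSUR hCUT hDEN hTR n hn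
  obtain ⟨c, hc, H⟩ := hMO n hn
  have hlog4 : 0 < Real.log 4 := Real.log_pos (by norm_num)
  refine ⟨min c (1 / Real.log 4), lt_min hc (by positivity), fun p hp S hS g hg => ?_⟩
  rcases S.eq_empty_or_nonempty with rfl | hne
  · rw [Finset.sum_empty, FINA2.Tn_zero]
    simp
  · have hlogp : 0 ≤ Real.log p := Real.log_nonneg (by linarith)
    have h1 : (1 : ℝ) ≤ S.card := by exact_mod_cast hne.card_pos
    have h2 : (S.card : ℝ) ≤ 1 / Real.log 4 * Real.log p :=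
      hS.trans (mul_le_mul_of_nonneg_right (min_le_right _ _) hlogp)
    have h3 : Real.log 4 ≤ Real.log p := by
      have h4 := h1.trans h2
      rw [one_div, ← div_eq_inv_mul, le_div_iff₀ hlog4, one_mul] at h4
      exact h4
    have hp4 : 4 ≤ p := (Real.log_le_log_iff (by norm_num) (by linarith)).1 h3
    have hS' : (S.card : ℝ) ≤ c * Real.log p :=
      hS.trans (mul_le_mul_of_nonneg_right (min_le_left _ _) hlogp)
    set g' : ℤ → 𝓢(ℂ, ℂ) := fun k => if k ∈ S then g k else 0 with hg'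
    have e : ∑ k ∈ S, g' k = ∑ k ∈ S, g k :=
      Finset.sum_congr rfl fun k hk => by simp only [hg', if_pos hk]
    have := FINA2.core hPOL (FINA2.geoS hGEO) hEXI (hDEN hSUR hCUT) hTR n hn p hp4 S
      (H p hp4 S hS') g' (fun k z a ha => by
        by_cases hk : k ∈ S
        · simp only [hg', if_pos hk]
          exact hg k hk z a ha
        · simp only [hg', if_neg hk]
          simp)
    rw [e] at this
    exact this

end Pool.Agent.W4helper65.BQ
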